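import Pool.Agent.Q6.SW.Three

/-!
# MP_87adae_co: almost all switching classes are reconstructible

`switch G τ` is the graph obtained from `G` by switching on `τ`, `SwitchEquiv G H` says that `H`
is isomorphic to a graph obtained from `G` by switching, `card G v` is the card `G - v`,
`SameDeck G H` says that the cards of `G` and `H` can be matched so that matched cards are switching
equivalent, and `Recon H` that the switching class of `H` is reconstructible. `Three H` says that
already three cards of `H` (any three) determine the switching class of `H`.

For all large `n`, at most a fraction `2 ^ (-n / 20)` of the graphs `H` on `n` labelled vertices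
fails `Three H ∧ Recon H`.
-/

set_option maxHeartbeats 400000

namespace Pool.Agent.Results.MP_87adae_co.AlmostAllClasses

open Pool.Q6.SW

open Classical in
theorem result :
    ∃ n₀ : ℕ, ∀ n ≥ n₀,
      ((Finset.univ.filter fun H : SimpleGraph (Fin n) => ¬ (Three H ∧ Recon H)).card : ℝ) ≤
        (2 : ℝ) ^ (-(n : ℝ) / 20) * Fintype.card (SimpleGraph (Fin n)) :=
  few_three

end Pool.Agent.Results.MP_87adae_co.AlmostAllClasses
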