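import Pool.Agent.Q6.SW.EvenCard

/-!
# MP_87adae_co: switching classes of graphs of even order with all degrees of the same parity

`switch G τ` is the graph obtained from `G` by switching on `τ`, `SwitchEquiv G H` says that `H`
is isomorphic to a graph obtained from `G` by switching, `card G v` is the card `G - v`,
`SameDeck G H` says that the cards of `G` and `H` can be matched so that matched cards are switching
equivalent, and `Recon H` that the switching class of `H` is reconstructible.

(1) If `n ≥ 10` is even and all degrees of `H` have the same parity, then the switching class of
`H` is reconstructible. (2) If `n` is even and `G`, `H` are two such graphs on `n` vertices, one of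
whose cards are switching equivalent, then `G` and `H` are switching equivalent.
-/

set_option maxHeartbeats 400000

namespace Pool.Agent.Results.MP_87adae_co.EqualParityDegrees

open Pool.Q6.SW

open Classical in
theorem result (n : ℕ) (hn : Even n) :
    (10 ≤ n → ∀ H : SimpleGraph (Fin n),
      (∀ x y, H.degree x % 2 = H.degree y % 2) → Recon H) ∧
    (∀ G H : SimpleGraph (Fin n), (∀ x y, G.degree x % 2 = G.degree y % 2) →
      (∀ x y, H.degree x % 2 = H.degree y % 2) →
      (∃ u v, SwitchEquiv (card G u) (card H v)) → SwitchEquiv G H) :=
  ⟨fun h10 _ hH => recon_of_even h10 (even_of_parity hn hH),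
    fun _ _ hG hH ⟨_, _, huv⟩ => one_card (even_of_parity hn hG) (even_of_parity hn hH) huv⟩

end Pool.Agent.Results.MP_87adae_co.EqualParityDegrees
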